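import Mathlib
import Pool.Agent.N178.MU.Defs

/-!
# The complex Abel–Jacobi map on the Chow groups of complex abelian varieties: known properties
-/

namespace Pool.Agent.U606.AJ

open Module Pool.Agent.Y90 Pool.Agent.N178.BL Pool.Agent.N178.MU

/-- Known properties of the Abel–Jacobi maps `CH_i(X)_hom ⊗ ℚ → J_i(X) ⊗ ℚ` of complex abelian
varieties; here `J_i(X)` is the intermediate Jacobian of the Hodge structure `H_(2 i + 1)(X)`. The
cycles on `X` are the correspondences from the point `O` to `X`. -/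
structure AbelJacobi (C : ChowTheory) (K : Projectors C) (O : AV) where
  /-- `Triv i z`: the cycle `z` on `X` has dimension `i`, is homologically trivial, and its image in
  `J_i(X) ⊗ ℚ` is zero -/
  Triv : ∀ {X : AV}, ℤ → C.Co O X → Prop
  point : finrank ℚ O.H = 0
  deg : ∀ {X : AV} (i : ℤ) (z : C.Co O X), Triv i z → C.IsDeg i z
  hom : ∀ {X : AV} (i : ℤ) (z : C.Co O X), Triv i z → ∀ ω, C.pb z ω = 0
  /-- the Abel–Jacobi map is a homomorphism -/
  zero : ∀ (X : AV) (i : ℤ), Triv i (0 : C.Co O X)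
  add : ∀ {X : AV} (i : ℤ) (z w : C.Co O X), Triv i z → Triv i w → Triv i (z + w)
  /-- it is functorial for correspondences of degree `r` -/
  functorial : ∀ {X Y : AV} (i r : ℤ) (z : C.Co O X) (f : C.Co X Y), C.IsDeg r f → Triv i z →
    Triv (i + r) (C.o f z)
  /-- the Abel–Jacobi image of `f_* z` only depends on the Abel–Jacobi image of `z` and on the map
  `f_* : H_(2 i + 1)(X) → H_(2 i + 2 r + 1)(Y)`, which is the transpose of `f^*`; it is zero if the
  component of degree `2 i + 1` of all classes `f^* ω` is zero -/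
  weight : ∀ {X Y : AV} (i r : ℤ) (z : C.Co O X) (f : C.Co X Y), C.IsDeg i z →
    (∀ ω, C.pb z ω = 0) → C.IsDeg r f → (∀ (ω : HT Y) (l : ℕ), (l : ℤ) = 2 * i + 1 →
      C.pb f ω l = 0) → Triv (i + r) (C.o f z)
  /-- Beauville, Deninger–Murre: the group of the zero-cycles on `h_1(Y)` is `Alb(Y) ⊗ ℚ`, so the
  projector to `h_1(Y)` is zero on the homologically trivial zero-cycles whose image in
  `J_0(Y) ⊗ ℚ = Alb(Y) ⊗ ℚ` is zero -/
  albanese : ∀ {Y : AV} (z : C.Co O Y), Triv 0 z → C.o (K.pr Y 1) z = 0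

end Pool.Agent.U606.AJ
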