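import Mathlib
import Pool.Agent.U606.AJ.Defs
import Pool.Agent.U606.MD.Main

/-!
# The kernel of the Abel–Jacobi map for motives of abelian type: the proofs
-/

set_option linter.unusedSectionVars false

namespace Pool.Agent.U606.AJ

open Module Pool.Agent.Y90 Pool.Agent.R915 Pool.Agent.N178.BL Pool.Agent.N178.GB
open Pool.Agent.N178.HX (GHC)
open Pool.Agent.N178.MU Pool.Agent.U606.MD
open Pool.Agent.W546.GHC (complexify typeForms)
open Pool.Agent.N178.AJ (complexify_bot)

noncomputable section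

variable {C : ChowTheory} {K : Projectors C} {X O : AV} (A : AbelJacobi C K O) {p : C.Co X X}
  {P : ℕ → C.Co X X}

include A in
/-- The compositions through `h_1(Y)(k)` kill the cycles of dimension `k` in the kernel of the
Abel–Jacobi map. -/
theorem Wt_one {k : ℕ} {T : C.Co X X} (hT : T ∈ Wt K X 1 k) {z : C.Co O X} (hz : A.Triv k z) :
    C.o T z = 0 := by
  unfold Wt at hT
  induction hT using AddSubgroup.closure_induction with
  | mem q hq =>
    obtain ⟨Y, Γ, κ, h3, h4, rfl⟩ := hq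
    have h5 := A.functorial k (-(k : ℤ)) z Γ h3 hz
    rw [add_neg_cancel] at h5
    rw [← C.assoc, ← C.assoc, A.albanese _ h5, o_zero]
  | zero => exact zero_o _
  | add a b _ _ ha hb => rw [C.add_o, ha, hb, add_zero]
  | neg a _ ha => rw [neg_o, ha, neg_zero]

theorem Triv_sum {i : ℤ} {ι : Type} (s : Finset ι) (f : ι → C.Co O X)
    (h : ∀ a ∈ s, A.Triv i (f a)) : A.Triv i (∑ a ∈ s, f a) := by
  classical
  induction s using Finset.induction_on with
  | empty => rw [Finset.sum_empty]; exact A.zero X i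
  | insert m s hm ih =>
    rw [Finset.sum_insert hm]
    exact A.add i _ _ (h m (Finset.mem_insert_self m s))
      (ih fun a ha => h a (Finset.mem_insert_of_mem ha))

include A in
/-- The vanishing for the weights at most `i + 1`. -/
theorem vanish_triv (h : IsChowKunneth p P) {i : ℤ} {m : ℕ} (hm : m ≤ 2 * i + 1) (hm' : m ≤ i + 1)
    {z : C.Co O X} (hz : A.Triv i z) : C.o (P m) z = 0 := by
  rcases (show (m : ℤ) ≤ 2 * i ∨ (m : ℤ) = 2 * i + 1 by omega) with h1 | h1
  · exact vanish_small K A.point h h1 hm' (A.deg i z hz) fun _ => A.hom i z hz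
  · obtain rfl : m = 1 := by omega
    obtain rfl : i = 0 := by omega
    have hd : C.IsDeg 0 (C.o (P 1) (K.pr X 1)) := by
      have h1 := C.deg_o (K.pr X 1) (P 1) (K.deg X 1) (h.1 1).1
      rwa [zero_add] at h1
    obtain ⟨B, D, hB, hD, h2⟩ := through (h.1 1) hd fun ω => by
      rw [C.pb_o]
      funext l
      by_cases hl : l = 1
      · subst hl
        exact (K.kunneth X 1 _).1
      · rw [(K.kunneth X 1 _).2 l hl, h.2.2.2 1 l hl ω]
    have hDz : A.Triv 0 (C.o D z) := by
      have h3 := A.functorial 0 0 z D hD hz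
      rwa [add_zero] at h3
    rw [h2, ← C.assoc, ← C.assoc, ← C.assoc, A.albanese _ hDz, o_zero, o_zero]

include A in
/-- The vanishing for the weights at most `2 i + 1`. -/
theorem vanish_ghc (hG : GHC C.alg X) (h : IsChowKunneth p P) {i : ℤ}
    (hH : ∀ s t : ℕ, (s + t : ℤ) ≤ 2 * i + 1 → (i + 2 ≤ s ∨ i + 2 ≤ t) → HodgeZero p s t)
    {m : ℕ} (hm : m ≤ 2 * i + 1) {z : C.Co O X} (hz : A.Triv i z) : C.o (P m) z = 0 := by
  rcases (show (m : ℤ) ≤ 2 * i ∨ (m : ℤ) = 2 * i + 1 by omega) with h1 | h1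
  · exact vanish K hG A.point h h1 (fun s t hst h2 => hH s t (by omega) h2) (A.deg i z hz)
      fun _ => A.hom i z hz
  · obtain ⟨k, rfl⟩ : ∃ k : ℕ, i = k := ⟨i.toNat, by omega⟩
    obtain ⟨T, hT, B, D, hB, hD, h2⟩ := part_Wt K hG h (n := 1) (k := k) (m := m) (by omega)
      fun s t hst h3 => hH s t (by omega) (by
        rw [lt_abs] at h3
        push_cast at h3
        omega)
    have hDz : A.Triv k (C.o D z) := by
      have h3 := A.functorial k 0 z D hD hz
      rwa [add_zero] at h3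
    rw [h2, ← C.assoc, ← C.assoc, Wt_one A hT hDz, o_zero]

/-- `F^2` is the kernel of the Abel–Jacobi map. -/
theorem kernel_of (h : IsChowKunneth p P) {i : ℤ}
    (hv : ∀ z : C.Co O X, A.Triv i z → ∀ m : ℕ, (m : ℤ) ≤ 2 * i + 1 → C.o (P m) z = 0)
    {z : C.Co O X} (hz : C.IsDeg i z) (hpz : C.o p z = z) : F p P i 2 z ↔ A.Triv i z := by
  refine ⟨fun hF => ?_, fun h0 => ⟨hz, hpz, fun m hm => hv z h0 m (by push_cast at hm; omega)⟩⟩
  obtain ⟨N, hN⟩ := sum_part h hpz
  have h0 : ∀ ω, C.pb z ω = 0 := by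
    intro ω
    rw [hN, pb_sum]
    refine Finset.sum_eq_zero fun m _ => ?_
    by_cases hm : (m : ℤ) = 2 * i
    · rw [hF.2.2 m (by push_cast; omega), zero_pb]
    · exact hom_part K A.point h hm hz ω
  rw [hN]
  refine Triv_sum A _ _ fun m _ => ?_
  by_cases hm : (m : ℤ) = 2 * i + 1
  · rw [hF.2.2 m (by push_cast; omega)]
    exact A.zero X i
  · have h3 := A.weight i 0 z (P m) hz h0 (h.1 m).1 fun ω l hl => h.2.2.2 m l (by omega) ω
    rwa [add_zero] at h3

/-- First case: no cohomology in the degrees between `i + 2` and `2 i + 1`. -/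
theorem kernel_gap (h : IsChowKunneth p P) {i : ℤ}
    (hH : ∀ s t : ℕ, i + 2 ≤ s + t → (s + t : ℤ) ≤ 2 * i + 1 → HodgeZero p s t)
    {z : C.Co O X} (hz : C.IsDeg i z) (hpz : C.o p z = z) : F p P i 2 z ↔ A.Triv i z := by
  refine kernel_of A h (fun z hz m hm => ?_) hz hpz
  rcases le_or_gt (m : ℤ) (i + 1) with h1 | h1
  · exact vanish_triv A h hm h1 hz
  · rw [part_zero h fun s t hst => hH s t (by omega) (by omega), zero_o]

/-- Second case: the generalized Hodge conjecture. -/
theorem kernel_ghc (hG : GHC C.alg X) (h : IsChowKunneth p P) {i : ℤ}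
    (hH : ∀ s t : ℕ, (s + t : ℤ) ≤ 2 * i + 1 → (i + 2 ≤ s ∨ i + 2 ≤ t) → HodgeZero p s t)
    {z : C.Co O X} (hz : C.IsDeg i z) (hpz : C.o p z = z) : F p P i 2 z ↔ A.Triv i z :=
  kernel_of A h (fun _ hz _ hm => vanish_ghc A hG h hH hm hz) hz hpz

/-! ### Injectivity -/

theorem hodgeZero_of_img {e : C.Co X X} {s t : ℕ} (hle : C.img e (s + t) ≤ C.img p (s + t))
    (h : HodgeZero p s t) : complexify X.per (C.img e (s + t)) ⊓ typeForms X.T (s + t) s t = ⊥ := by
  rw [eq_bot_iff]
  refine le_trans (inf_le_inf_right _ ?_) h.le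
  refine Submodule.span_mono ?_
  rintro ψ ⟨f, hf, hψ⟩
  exact ⟨f, hle hf, hψ⟩

/-- **The injectivity of the Abel–Jacobi map.** -/
theorem inj (hG : GHC C.alg X) (hp : C.IsMotive p) {i : ℤ}
    (hH : ∀ s t : ℕ, ((s : ℤ) ≤ i ∧ i + 2 ≤ t) ∨ ((t : ℤ) ≤ i ∧ i + 2 ≤ s) → HodgeZero p s t)
    {z : C.Co O X} (hz : A.Triv i z) (hpz : C.o p z = z) : z = 0 := by
  classical
  have hzd := A.deg i z hz
  have hz0 := A.hom i z hz
  rcases lt_or_ge i 0 with hi | hi
  · exact C.deg_neg z hzd (by rw [A.point]; push_cast; omega)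
  obtain ⟨k, rfl⟩ : ∃ k : ℕ, i = k := ⟨i.toNat, by omega⟩
  have hpd := hp.1
  have hed : ∀ m, C.IsDeg 0 (C.o p (K.pr X m)) := fun m => by
    have h1 := C.deg_o _ _ (K.deg X m) hpd
    rwa [zero_add] at h1
  have hepb : ∀ m ω, C.pb (C.o p (K.pr X m)) ω = inc X m (C.pb p ω m) := fun m ω => by
    rw [C.pb_o]
    exact eq_inc (K.kunneth X m _).1 (K.kunneth X m _).2
  have himg : ∀ m, C.img (C.o p (K.pr X m)) m ≤ C.img p m := by
    intro m
    refine Submodule.span_le.2 ?_
    rintro _ ⟨ω, rfl⟩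
    rw [hepb, inc_same]
    exact Submodule.subset_span ⟨ω, rfl⟩
  have himg0 : ∀ m l, l ≠ m → C.img (C.o p (K.pr X m)) l = ⊥ := by
    intro m l hl
    rw [eq_bot_iff]
    refine Submodule.span_le.2 ?_
    rintro _ ⟨ω, rfl⟩
    rw [hepb, inc_ne hl]
    exact Submodule.zero_mem _
  -- the parts
  have hpart : ∀ m : ℕ, ∃ T : C.Co X X, C.IsDeg 0 T ∧
      (∀ ω, C.pb T ω = C.pb (C.o p (K.pr X m)) ω) ∧ C.o T z = 0 := by
    intro m
    rcases lt_trichotomy m (2 * k + 1) with hm | hm | hm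
    · -- small weights
      obtain ⟨n, l, hnk, h1, hL⟩ : ∃ n l : ℕ, m = n + 2 * l ∧ n + l ≤ k + 1 ∧
          ∀ s t : ℕ, s + t = m → (n : ℤ) < |(s : ℤ) - t| → k + 2 ≤ s ∨ k + 2 ≤ t := by
        by_cases h2 : m ≤ k + 1
        · refine ⟨m, 0, by omega, by omega, fun s t hst h3 => ?_⟩
          exfalso
          rw [lt_abs] at h3
          omega
        · refine ⟨2 * k + 2 - m, m - k - 1, by omega, by omega, fun s t hst h3 => ?_⟩
          rw [lt_abs] at h3
          omega
      obtain ⟨T, hT, h2⟩ := exists_Wt K hG (hed m) hnk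
        (fun a ha ω => by rw [hepb, inc_ne ha]) (fun s t hst h3 => by
          subst hst
          refine hodgeZero_of_img (himg _) (hH s t ?_)
          have h4 := hL s t rfl h3
          omega)
      exact ⟨T, Wt_deg K hT, h2, Wt_zero K A.point hT hzd (by omega) (by omega) fun _ => hz0⟩
    · -- the weight of the Abel–Jacobi map
      obtain ⟨T, hT, h2⟩ := exists_Wt K hG (hed m) (n := 1) (k := k) (m := m) (by omega)
        (fun a ha ω => by rw [hepb, inc_ne ha]) (fun s t hst h3 => by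
          subst hst
          refine hodgeZero_of_img (himg _) (hH s t ?_)
          rw [lt_abs] at h3
          push_cast at h3
          omega)
      exact ⟨T, Wt_deg K hT, h2, Wt_one A hT hz⟩
    · -- large weights
      obtain ⟨q, hq, h1⟩ := exists_q hG (hed m) (c := k + 1) (fun l s t hst hne h2 => by
        by_cases hl : l = m
        · subst hl
          subst hst
          exact hodgeZero_of_img (himg _) (hH s t (by omega))
        · rw [himg0 m l hl, complexify_bot, bot_inf_eq])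
      refine ⟨C.o (C.o p (K.pr X m)) q, ?_, fun ω => ?_, ?_⟩
      · have h3 := C.deg_o q _ (Fac_deg hq) (hed m)
        rwa [zero_add] at h3
      · rw [C.pb_o q, h1]
      · rw [← C.assoc, kill hq A.point (by push_cast; omega) hzd hz0, o_zero]
  choose T hTd hTpb hT0 using hpart
  obtain ⟨S, hS⟩ : ∃ S, S = ∑ m ∈ Finset.range (finrank ℚ X.H + 1), T m := ⟨_, rfl⟩
  have hSd : C.IsDeg 0 S := by
    rw [hS]
    have : ∀ s : Finset ℕ, C.IsDeg 0 (∑ m ∈ s, T m) := by
      intro s
      induction s using Finset.induction_on with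
      | empty => rw [Finset.sum_empty]; exact deg_zero (C.deg_one X)
      | insert m s hm ih => rw [Finset.sum_insert hm]; exact deg_add (hTd m) ih
    exact this _
  have hSpb : ∀ ω, C.pb S ω = C.pb p ω := by
    intro ω
    rw [hS, pb_sum]
    conv_rhs => rw [sum_inc (C.pb p ω)]
    exact Finset.sum_congr rfl fun m _ => by rw [hTpb, hepb]
  have hS0 : C.o S z = 0 := by
    rw [hS, sum_o]
    exact Finset.sum_eq_zero fun m _ => hT0 m
  -- nilpotence
  obtain ⟨ν, hν⟩ : ∃ ν, ν = p - S := ⟨_, rfl⟩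
  have hνd : C.IsDeg 0 ν := by
    rw [hν]
    exact C.deg_sub _ _ hpd hSd
  obtain ⟨N, hN⟩ := C.nilpotent ν hνd fun ω => by rw [hν, pb_sub, hSpb, sub_self]
  have h1 : C.o ν z = z := by
    have h2 := C.add_o (p - S) S z
    rw [sub_add_cancel, hS0, add_zero, hpz] at h2
    rw [hν, ← h2]
  have key : ∀ k : ℕ, C.o ((fun g : C.Co X X => C.o ν g)^[k] (C.one X)) z = z := by
    intro k
    induction k with
    | zero => rw [Function.iterate_zero, id_eq, C.one_o]
    | succ k ih => rw [Function.iterate_succ_apply', ← C.assoc, ih, h1]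
  rw [← key N, hN, zero_o]

end

end Pool.Agent.U606.AJ
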